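import Pool.Agent.Helper17.OD.GoalsFP

/-!
# Packet EIU: unfolding of the isomorphism
-/

namespace Pool.Agent.Helper17.OD.PkEIU

open Set Pool.Agent.Helper17.OD

lemma eis_congr (F : FD) (p' q' : T) (e e' : O → T → T) (j : O) (r : T)
    (h : ∀ i < j, e i = e' i) : EiS F p' q' e j r = EiS F p' q' e' j r := by
  ext z
  unfold EiS
  constructor
  · rintro ⟨i, hi, hk, x, hx, hz⟩
    refine ⟨i, hi, hk, x, hx, ?_⟩
    rw [← h i hi]
    exact hz
  · rintro ⟨i, hi, hk, x, hx, hz⟩
    refine ⟨i, hi, hk, x, hx, ?_⟩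
    rw [h i hi]
    exact hz

/-- **Packet EIU.** -/
theorem thm : G_EIU := by
  intro F p' q' j r
  have h1 : Ei F p' q' j = fun r => canon (EiS F p' q'
      (fun i => if _h : i < j then Ei F p' q' i else fun t => t) j r) := by
    unfold Ei
    rw [WellFounded.fix_eq]
  rw [h1]
  show canon _ = canon _
  congr 1
  apply eis_congr
  intro i hi
  rw [dif_pos hi]

end Pool.Agent.Helper17.OD.PkEIU
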