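import Pool.Agent.Helper17.OD.GoalsGE

/-!
# Packet GNF: simple facts on generic filters
-/

namespace Pool.Agent.Helper17.OD.PkGNF

open Set Pool.Agent.Helper17.OD

/-- **Packet GNF.** -/
theorem thm (hAMG : G_AMG) (hRES : G_RES) (hPRO : G_PRO) (hPIM : G_PIM) (hPBD : G_PBD)
    (hSOB : G_SOB) : G_GNF := by
  intro F G hG
  have hS : SOM F.γ F.M F.M := F.g.m1
  have hkg := F.g.kg
  obtain ⟨-, pim2, pim3⟩ := hPIM F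
  obtain ⟨-, pbd2, pbd3, -, -, -, -, -⟩ := hPBD F
  obtain ⟨pro1, pro2, pro3, -, -⟩ := hPRO F
  obtain ⟨res1, -, -⟩ := hRES F
  obtain ⟨amg1, -⟩ := hAMG F
  obtain ⟨-, -, -, -, -, -, -, sob8, -⟩ := hSOB F.γ F.M F.M hS
  have hDκ : D (Iio F.κ) ⊆ D (Iio F.γ) := D_mono (Iio_subset_Iio hkg.le)
  have hPκ : ∀ p ∈ F.P F.κ, p ∈ D (Iio F.γ) := fun p hp => hDκ (pbd2 _ hp)
  have h1 : ∀ j < F.κ, ∀ p ∈ G, res p j ∈ G := by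
    intro j hj p hp
    obtain ⟨r1, -, -, -, -, -, -, r2⟩ := res1 p (hG.sub hp) j hj.le
    exact hG.up p hp _ (pbd3 j F.κ hj.le r1) r2
  refine ⟨h1, ?_, ?_, ?_⟩
  · intro j hj t ht htj q hq htq
    obtain ⟨a1, -, -, -, -, -, a7, -⟩ := amg1 j hj t htj q (hG.sub hq) htq
    obtain ⟨r, hr, hrt, hrq⟩ := hG.dir t ht q hq
    exact hG.up r hr _ a1 (a7 r (hG.sub hr) hrq (pro3 _ _ _ _ hj.le hrt))
  · intro p hp E hE hd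
    have hpκ := hG.sub hp
    have sdP : SD F.γ F.M F.M (fun e _ => e ∈ F.P F.κ) :=
      SD.mem ST.id (SV.par (pim3 F.κ (le_refl _)))
    have sdE : SD F.γ F.M F.M (fun e _ => e ∈ E) := SD.mem ST.id (SV.par hE)
    have sdLe : SD F.γ F.M F.M (fun e _ => ∃ i ≤ F.κ, (Tr.ord F.κ : T) = .ord i ∧
        e.fst ∈ D (Iio F.κ) ∧ e.snd ∈ D (Iio F.κ) ∧ F.Le i e.fst e.snd) :=
      pim2.sub (t := fun e => .pr (.ord F.κ) (.pr e.fst e.snd))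
        ((ST.ordc hkg).pr (ST.id.fst.pr ST.id.snd))
    have sdX : SD F.γ F.M F.M (fun e _ =>
        (∃ s ∈ D (Iio F.γ), (s ∈ E ∧ s ∈ F.P F.κ) ∧ ∃ i ≤ F.κ, (Tr.ord F.κ : T) = .ord i ∧
          e ∈ D (Iio F.κ) ∧ s ∈ D (Iio F.κ) ∧ F.Le i e s) ∨
        ¬ ∃ u ∈ D (Iio F.γ), u ∈ F.P F.κ ∧ (∃ i ≤ F.κ, (Tr.ord F.κ : T) = .ord i ∧
          u ∈ D (Iio F.κ) ∧ e ∈ D (Iio F.κ) ∧ F.Le i u e) ∧
          (∃ i ≤ F.κ, (Tr.ord F.κ : T) = .ord i ∧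
          u ∈ D (Iio F.κ) ∧ p ∈ D (Iio F.κ) ∧ F.Le i u p)) := by
      refine SD.or ?_ (SD.not ?_)
      · refine SD.exT (P := fun e s _ => (s ∈ E ∧ s ∈ F.P F.κ) ∧ ∃ i ≤ F.κ,
          (Tr.ord F.κ : T) = .ord i ∧ e ∈ D (Iio F.κ) ∧ s ∈ D (Iio F.κ) ∧ F.Le i e s) ?_
        exact ((sdE.sub ST.id.fst).and (sdP.sub ST.id.fst)).and
          (sdLe.sub (t := fun e => .pr e.snd e.fst) (ST.id.snd.pr ST.id.fst))
      · refine SD.exT (P := fun e u _ => u ∈ F.P F.κ ∧ (∃ i ≤ F.κ, (Tr.ord F.κ : T) = .ord i ∧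
          u ∈ D (Iio F.κ) ∧ e ∈ D (Iio F.κ) ∧ F.Le i u e) ∧
          (∃ i ≤ F.κ, (Tr.ord F.κ : T) = .ord i ∧
          u ∈ D (Iio F.κ) ∧ p ∈ D (Iio F.κ) ∧ F.Le i u p)) ?_
        exact (sdP.sub ST.id.fst).and ((sdLe.sub (t := fun e => .pr e.fst e.snd)
          (ST.id.fst.pr ST.id.snd)).and (sdLe.sub (t := fun e => .pr e.fst p)
          (ST.id.fst.pr (ST.const (hPκ p hpκ)))))
    have hX := sob8 (F.P F.κ) (pim3 F.κ (le_refl _)) _ sdX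
    set X := {t : T | t ∈ F.P F.κ ∧
        ((∃ s ∈ D (Iio F.γ), (s ∈ E ∧ s ∈ F.P F.κ) ∧ ∃ i ≤ F.κ, (Tr.ord F.κ : T) = .ord i ∧
          t ∈ D (Iio F.κ) ∧ s ∈ D (Iio F.κ) ∧ F.Le i t s) ∨
        ¬ ∃ u ∈ D (Iio F.γ), u ∈ F.P F.κ ∧ (∃ i ≤ F.κ, (Tr.ord F.κ : T) = .ord i ∧
          u ∈ D (Iio F.κ) ∧ t ∈ D (Iio F.κ) ∧ F.Le i u t) ∧
          (∃ i ≤ F.κ, (Tr.ord F.κ : T) = .ord i ∧
          u ∈ D (Iio F.κ) ∧ p ∈ D (Iio F.κ) ∧ F.Le i u p))} with hXdef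
    have memX : ∀ t, t ∈ X ↔ t ∈ F.P F.κ ∧ ((∃ s ∈ E, s ∈ F.P F.κ ∧ F.Le F.κ t s) ∨
        ¬ ∃ u ∈ F.P F.κ, F.Le F.κ u t ∧ F.Le F.κ u p) := by
      intro t
      rw [hXdef]
      constructor
      · rintro ⟨k1, k2⟩
        refine ⟨k1, ?_⟩
        rcases k2 with ⟨s, -, ⟨k3, k4⟩, i, -, k5, -, -, k6⟩ | k2
        · obtain rfl : F.κ = i := by injection k5
          exact Or.inl ⟨s, k3, k4, k6⟩
        · refine Or.inr ?_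
          rintro ⟨u, k3, k4, k5⟩
          exact k2 ⟨u, hPκ u k3, k3, ⟨F.κ, le_refl _, rfl, pbd2 _ k3, pbd2 _ k1, k4⟩,
            ⟨F.κ, le_refl _, rfl, pbd2 _ k3, pbd2 _ hpκ, k5⟩⟩
      · rintro ⟨k1, k2⟩
        refine ⟨k1, ?_⟩
        rcases k2 with ⟨s, k3, k4, k5⟩ | k2
        · exact Or.inl ⟨s, hPκ s k4, ⟨k3, k4⟩, F.κ, le_refl _, rfl, pbd2 _ k1, pbd2 _ k4, k5⟩
        · refine Or.inr ?_
          rintro ⟨u, -, k3, ⟨i, -, k4, -, -, k5⟩, ⟨i', -, k6, -, -, k7⟩⟩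
          obtain rfl : F.κ = i := by injection k4
          obtain rfl : F.κ = i' := by injection k6
          exact k2 ⟨u, k3, k5, k7⟩
    have hDO : F.DO X := by
      refine ⟨hX, fun t ht => ((memX t).1 ht).1, ?_, ?_⟩
      · intro q hq
        by_cases hc : ∃ u ∈ F.P F.κ, F.Le F.κ u q ∧ F.Le F.κ u p
        · obtain ⟨u, hu, huq, hup⟩ := hc
          obtain ⟨r, hrE, hr, hru⟩ := hd u hu hup
          exact ⟨r, (memX r).2 ⟨hr, Or.inl ⟨r, hrE, hr, pro1 _ _⟩⟩, pro2 _ _ _ _ hru huq⟩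
        · exact ⟨q, (memX q).2 ⟨hq, Or.inr hc⟩, pro1 _ _⟩
      · intro q hq r hr hrq
        obtain ⟨k1, k2⟩ := (memX q).1 hq
        refine (memX r).2 ⟨hr, ?_⟩
        rcases k2 with ⟨s, k3, k4, k5⟩ | k2
        · exact Or.inl ⟨s, k3, k4, pro2 _ _ _ _ hrq k5⟩
        · refine Or.inr ?_
          rintro ⟨u, k3, k4, k5⟩
          exact k2 ⟨u, k3, pro2 _ _ _ _ k4 hrq, k5⟩
    obtain ⟨r, hr, hrX⟩ := hG.gen X hDO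
    obtain ⟨k1, k2⟩ := (memX r).1 hrX
    rcases k2 with ⟨s, k3, k4, k5⟩ | k2
    · exact ⟨s, k3, hG.up r hr s k4 k5⟩
    · obtain ⟨u, hu, hur, hup⟩ := hG.dir r hr p hp
      exact absurd ⟨u, hG.sub hu, hur, hup⟩ k2
  · intro s hs t ht j hsj htj hj
    obtain ⟨r, hr, hrs, hrt⟩ := hG.dir s hs t ht
    obtain ⟨r1, -, -, -, -, r2, -, -⟩ := res1 r (hG.sub hr) j hj.le
    exact ⟨res r j, h1 j hj r hr, r1, pro2 _ _ _ _ r2 (pro3 _ _ _ _ hj.le hrs),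
      pro2 _ _ _ _ r2 (pro3 _ _ _ _ hj.le hrt)⟩

end Pool.Agent.Helper17.OD.PkGNF
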