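import Pool.Agent.Helper17.OD.GoalsFP

/-!
# Packet ONE: (P6), one step
-/

namespace Pool.Agent.Helper17.OD.PkONE

open Set Pool.Agent.Helper17.OD

/-- **Packet ONE.** -/
theorem thm (hANT : G_ANT) (hMIX : G_MIX) (hAMG : G_AMG) (hRES : G_RES) (hPRO : G_PRO)
    (hEQV : G_EQV) (hLST : G_LST) (hPIM : G_PIM) (hPBD : G_PBD) (hSOB : G_SOB)
    (hGRD : G_GRD) : G_ONE := by
  intro F j x hj hx q hq E hE
  have hS : SOM F.γ F.M F.M := F.g.m1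
  have hwk := F.g.wk
  have hkg := F.g.kg
  have hJ : Order.succ j < F.κ := F.g.klim.succ_lt hj
  set J := Order.succ j with hJdef
  have hJγ : J < F.γ := hJ.trans hkg
  obtain ⟨pim1, pim2, pim3⟩ := hPIM F
  obtain ⟨-, pbd2, pbd3, -, -, -, -, -⟩ := hPBD F
  obtain ⟨pro1, pro2, pro3, -, -⟩ := hPRO F
  obtain ⟨eqv1, -, -⟩ := hEQV F
  obtain ⟨res1, -, res3⟩ := hRES F
  obtain ⟨amg1, -⟩ := hAMG F
  obtain ⟨-, grd2, -, -, grd5⟩ := hGRD F j x hj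
  obtain ⟨-, -, -, -, -, -, -, sob8, -⟩ := hSOB F.γ F.M F.M hS
  have hDκ : D (Iio F.κ) ⊆ D (Iio F.γ) := D_mono (Iio_subset_Iio hkg.le)
  have hPκ : ∀ p ∈ F.P F.κ, p ∈ D (Iio F.γ) := fun p hp => hDκ (pbd2 _ hp)
  have hPJκ : F.P J ⊆ F.P F.κ := pbd3 J F.κ hJ.le
  have hqγ := hPκ q hq
  -- the relations
  have sdLeκq : SD F.γ F.M F.M (fun e _ => ∃ i ≤ F.κ, (Tr.ord F.κ : T) = .ord i ∧
      e.fst ∈ D (Iio F.κ) ∧ e.snd ∈ D (Iio F.κ) ∧ F.Le i e.fst e.snd) :=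
    pim2.sub (t := fun e => .pr (.ord F.κ) (.pr e.fst e.snd))
      ((ST.ordc hkg).pr (ST.id.fst.pr ST.id.snd))
  have sdLeJ : SD F.γ F.M F.M (fun e _ => ∃ i ≤ F.κ, (Tr.ord J : T) = .ord i ∧
      e.fst ∈ D (Iio F.κ) ∧ e.snd ∈ D (Iio F.κ) ∧ F.Le i e.fst e.snd) :=
    pim2.sub (t := fun e => .pr (.ord J) (.pr e.fst e.snd))
      ((ST.ordc hJγ).pr (ST.id.fst.pr ST.id.snd))
  have sdRes : SD F.γ F.M F.M (fun e _ => ∃ i ≤ F.κ, (Tr.ord J : T) = .ord i ∧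
      e.fst ∈ F.P F.κ ∧ e.snd = res e.fst i) :=
    res3.sub (t := fun e => .pr (.ord J) (.pr e.fst e.snd))
      ((ST.ordc hJγ).pr (ST.id.fst.pr ST.id.snd))
  have sdGd : SD F.γ F.M F.M (fun e _ => ∃ y, (Tr.ord x : T) = .ord y ∧ e ∈ F.P F.κ ∧
      e ∈ Gd j y) :=
    grd5.sub (t := fun e => .pr (.ord x) e)
      ((ST.ordc ((hx.trans (F.e.lt j hj)).trans hkg)).pr ST.id)
  have sdE : SD F.γ F.M F.M (fun e _ => e ∈ E) := SD.mem ST.id (SV.par hE.inM)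
  -- the relation `R t r`
  have sdR : SD F.γ F.M F.M (fun e _ => e.snd ∈ E ∧ F.Le F.κ e.snd q ∧ res e.snd J = e.fst) := by
    have h1 : SD F.γ F.M F.M (fun e _ => e.snd ∈ E ∧
        (∃ i ≤ F.κ, (Tr.ord F.κ : T) = .ord i ∧
          e.snd ∈ D (Iio F.κ) ∧ q ∈ D (Iio F.κ) ∧ F.Le i e.snd q) ∧
        (∃ i ≤ F.κ, (Tr.ord J : T) = .ord i ∧ e.snd ∈ F.P F.κ ∧ e.fst = res e.snd i)) :=
      (sdE.sub ST.id.snd).and
        ((sdLeκq.sub (t := fun e => .pr e.snd q) (ST.id.snd.pr (ST.const hqγ))).and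
          (sdRes.sub (t := fun e => .pr e.snd e.fst) (ST.id.snd.pr ST.id.fst)))
    refine h1.congr fun e he σ hσ => ?_
    constructor
    · rintro ⟨h2, ⟨i, hi, hi', -, -, h3⟩, ⟨i', hi1, hi2, -, h4⟩⟩
      obtain rfl : F.κ = i := by injection hi'
      obtain rfl : J = i' := by injection hi2
      exact ⟨h2, h3, h4.symm⟩
    · rintro ⟨h2, h3, h4⟩
      exact ⟨h2, ⟨F.κ, le_refl _, rfl, pbd2 _ (hE.sub h2), pbd2 _ hq, h3⟩,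
        ⟨J, hJ.le, rfl, hE.sub h2, h4.symm⟩⟩
  obtain ⟨g, hg1, -, hg3⟩ := hLST F.γ F.M F.M hS
    (fun t r => r ∈ E ∧ F.Le F.κ r q ∧ res r J = t) sdR
  -- the set `T₀`
  have sdT : SD F.γ F.M F.M (fun e _ =>
      (∃ y, (Tr.ord x : T) = .ord y ∧ e ∈ F.P F.κ ∧ e ∈ Gd j y) ∧
      (∃ i ≤ F.κ, (Tr.ord J : T) = .ord i ∧
        e ∈ D (Iio F.κ) ∧ q ∈ D (Iio F.κ) ∧ F.Le i e q) ∧
      ∃ r ∈ D (Iio F.γ), (r ∈ E ∧ F.Le F.κ r q ∧ res r J = e)) := by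
    refine sdGd.and ((sdLeJ.sub (t := fun e => .pr e q) (ST.id.pr (ST.const hqγ))).and ?_)
    refine SD.exT (P := fun e r _ => r ∈ E ∧ F.Le F.κ r q ∧ res r J = e) ?_
    exact sdR.sub (t := fun e => .pr e.snd e.fst) (ST.id.snd.pr ST.id.fst)
  have hT0 := sob8 (F.P J) (pim3 J hJ.le) _ sdT
  set T₀ := {t : T | t ∈ F.P J ∧ (∃ y, (Tr.ord x : T) = .ord y ∧ t ∈ F.P F.κ ∧ t ∈ Gd j y) ∧
      (∃ i ≤ F.κ, (Tr.ord J : T) = .ord i ∧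
        t ∈ D (Iio F.κ) ∧ q ∈ D (Iio F.κ) ∧ F.Le i t q) ∧
      ∃ r ∈ D (Iio F.γ), (r ∈ E ∧ F.Le F.κ r q ∧ res r J = t)} with hT0def
  have memT0 : ∀ t, t ∈ T₀ ↔ t ∈ F.P J ∧ t ∈ Gd j x ∧ F.Le J t q ∧
      ∃ r ∈ E, F.Le F.κ r q ∧ res r J = t := by
    intro t
    rw [hT0def]
    constructor
    · rintro ⟨h1, ⟨y, hy, -, h2⟩, ⟨i, -, hi, -, -, h3⟩, ⟨r, -, h4, h5, h6⟩⟩
      obtain rfl : x = y := by injection hy
      obtain rfl : J = i := by injection hi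
      exact ⟨h1, h2, h3, r, h4, h5, h6⟩
    · rintro ⟨h1, h2, h3, r, h4, h5, h6⟩
      exact ⟨h1, ⟨x, rfl, hPJκ h1, h2⟩, ⟨J, hJ.le, rfl, pbd2 _ h1, pbd2 _ hq, h3⟩,
        ⟨r, hPκ r (hE.sub h4), h4, h5, h6⟩⟩
  obtain ⟨A, hAM, hA0, hA1, hA2⟩ := hANT F J hJ T₀ hT0 (fun t ht => ((memT0 t).1 ht).1)
  have hg : ∀ t ∈ A, g t ∈ E ∧ F.Le F.κ (g t) q ∧ res (g t) J = t := by
    intro t ht
    obtain ⟨h1, -, -, r, h4, h5, h6⟩ := (memT0 t).1 (hA0 ht)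
    exact (hg1 t (hPκ t (hPJκ h1)) ⟨r, hPκ r (hE.sub h4), h4, h5, h6⟩).2.1
  have hgr : gr A g ∈ F.M := by
    refine SOM.of_SD (S := F.M) (d := F.κ) hkg ?_ ?_
    · rintro p ⟨t, ht, rfl⟩
      exact pr_mem.2 ⟨pbd2 _ ((memT0 t).1 (hA0 ht)).1, pbd2 _ (hE.sub (hg t ht).1)⟩
    · have h1 : SD F.γ F.M F.M (fun e _ => e.fst ∈ A ∧ g e.fst = e.snd ∧ e = .pr e.fst e.snd) :=
        ((SD.mem ST.id (SV.par hAM)).sub ST.id.fst).and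
          (hg3.and (SD.eq ST.id (ST.id.fst.pr ST.id.snd)))
      refine h1.congr fun e he σ hσ => ?_
      constructor
      · rintro ⟨h2, h3, h4⟩
        refine ⟨e.fst, h2, ?_⟩
        rw [h3]
        exact h4
      · rintro ⟨t, ht, rfl⟩
        exact ⟨ht, rfl, rfl⟩
  obtain ⟨q', hq', hq1, hq2, hq3, hq4⟩ := hMIX F j x hj hx q hq A hAM
    (fun t ht => ((memT0 t).1 (hA0 ht)).1) hA1
    (fun t ht => ⟨((memT0 t).1 (hA0 ht)).2.1, ((memT0 t).1 (hA0 ht)).2.2.1⟩) g hgr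
    (fun t ht => ⟨hE.sub (hg t ht).1, (hg t ht).2.1, (hg t ht).2.2⟩)
  refine ⟨q', hq', hq1, hq2, hq3, ?_⟩
  intro t ht htq htx
  have hle : ∀ s, F.Le J s q' ↔ F.Le J s q := fun s => (eqv1 J q' q s hq2).1
  obtain ⟨a1, a2, -, a4, -, -, -, -⟩ := amg1 J hJ t ht q hq htq
  obtain ⟨r, hr, hra⟩ := hE.dense _ a1
  have hrκ := hE.sub hr
  have hrq : F.Le F.κ r q := pro2 _ _ _ _ hra a4
  obtain ⟨r1, -, -, -, -, r2, -, -⟩ := res1 r hrκ J hJ.le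
  have hat : F.Le J (am t q J) t := (eqv1 J (am t q J) t t a2).2.2
  have ht1t : F.Le J (res r J) t :=
    pro2 _ _ _ _ r2 (pro2 _ _ _ _ (pro3 _ _ _ _ hJ.le hra) hat)
  have ht1x : res r J ∈ Gd j x := grd2 t (hPJκ ht) _ (hPJκ r1) ht1t htx
  have ht1 : res r J ∈ T₀ := (memT0 _).2 ⟨r1, ht1x, pro2 _ _ _ _ ht1t htq, r, hr, hrq, rfl⟩
  obtain ⟨s, hs, u, hu, hus, hut⟩ := hA2 _ ht1
  refine ⟨u, hu, pro2 _ _ _ _ hut ht1t, ?_⟩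
  have hs0 := (memT0 s).1 (hA0 hs)
  have hsq' : F.Le J s q' := (hle s).2 hs0.2.2.1
  obtain ⟨b1, -, -, -, -, b6, -, -⟩ := amg1 J hJ s hs0.1 q' hq' hsq'
  have huq' : F.Le J u q' := pro2 _ _ _ _ hus hsq'
  obtain ⟨c1, -, -, -, -, -, -, -⟩ := amg1 J hJ u hu q' hq' huq'
  have h1 : am s q' J ∈ E := hE.opn _ (hg s hs).1 _ b1 (hq4 s hs)
  exact hE.opn _ h1 _ c1 (b6 u hu hus)

end Pool.Agent.Helper17.OD.PkONE
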