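import Pool.Agent.Helper17.OD.GoalsCV

/-!
# Packet VAL: existence of `val` in `S'`
-/

namespace Pool.Agent.Helper17.OD.PkVAL

open Set Pool.Agent.Helper17.OD

/-! ### The well-founded relation -/

/-- Supremum of the successors of the leaves. -/
noncomputable def sl : T → O
  | .nat _ => 0
  | .ord a => Order.succ a
  | .pr s t => max (sl s) (sl t)

lemma sl_le {t : T} {a : O} : t ∈ D (Iio a) ↔ sl t ≤ a := by
  induction t with
  | nat n => simp [sl, nat_mem]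
  | ord b => rw [ord_mem, sl, Order.succ_le_iff]; rfl
  | pr s t hs ht => rw [pr_mem, hs, ht, sl, max_le_iff]

/-- Predecessors. -/
def prd (x : T) : Set T := {b | (SubT b x ∧ b ≠ x) ∨ ∃ i ∈ x.leaves, b ∈ D (Iio i)}

lemma subT_self (x : T) : SubT x x := by cases x <;> simp [SubT]

lemma subT_leaves {b x : T} (h : SubT b x) : b.leaves ⊆ x.leaves := by
  induction x with
  | nat n => have h' : b = .nat n := h; rw [h']
  | ord a => have h' : b = .ord a := h; rw [h']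
  | pr s t hs ht =>
    rcases h with h | h | h
    · rw [h]
    · exact (hs h).trans subset_union_left
    · exact (ht h).trans subset_union_right

lemma subT_height {b x : T} (h : SubT b x) : b = x ∨ b.height < x.height := by
  induction x with
  | nat n => exact Or.inl h
  | ord a => exact Or.inl h
  | pr s t hs ht =>
    rcases h with h | h | h
    · exact Or.inl h
    · right
      have h1 : s.height < (Tr.pr s t).height := by simp only [Tr.height]; omega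
      rcases hs h with h2 | h2
      · rw [h2]; exact h1
      · omega
    · right
      have h1 : t.height < (Tr.pr s t).height := by simp only [Tr.height]; omega
      rcases ht h with h2 | h2
      · rw [h2]; exact h1
      · omega

lemma sl_mono {b x : T} (h : b.leaves ⊆ x.leaves) : sl b ≤ sl x :=
  sl_le.1 (h.trans (sl_le.2 (le_refl _)))

lemma prd_wf : WellFounded (fun y x : T => y ∈ prd x) := by
  refine Subrelation.wf (r := InvImage (Prod.Lex (· < ·) (· < ·))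
    (fun t : T => (sl t, t.height))) ?_
    (InvImage.wf _ (WellFounded.prod_lex wellFounded_lt wellFounded_lt))
  intro y x h
  show Prod.Lex (· < ·) (· < ·) (sl y, y.height) (sl x, x.height)
  rcases h with ⟨h1, h2⟩ | ⟨i, hi, h1⟩
  · have h3 := (subT_height h1).resolve_left h2
    rcases lt_or_eq_of_le (sl_mono (subT_leaves h1)) with h4 | h4
    · exact Prod.Lex.left _ _ h4
    · rw [h4]
      exact Prod.Lex.right _ h3
  · refine Prod.Lex.left _ _ ?_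
    have h3 : sl y ≤ i := sl_le.1 h1
    have h4 : (Tr.ord i : T) ∈ D (Iio (sl x)) := by
      have h5 : x ∈ D (Iio (sl x)) := sl_le.2 (le_refl _)
      exact ord_mem.2 (h5 hi)
    exact lt_of_le_of_lt h3 (ord_mem.1 h4)

lemma prd_sub {d : O} {x : T} (hx : x ∈ D (Iio d)) : prd x ⊆ D (Iio d) := by
  rintro b (⟨h1, -⟩ | ⟨i, hi, h1⟩)
  · exact (subT_leaves h1).trans hx
  · exact h1.trans (Iio_subset_Iio (le_of_lt (hx hi)))

/-! ### The defining relation -/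

/-- Successor of natural numbers. -/
def Suc (m m' : T) : Prop := ∃ n : ℕ, m = .nat n ∧ m' = .nat (n + 1)

/-- Natural numbers. -/
def Nt (m : T) : Prop := ∃ n : ℕ, m = .nat n

/-- Membership in a constructible set. -/
def DecR (x u : T) : Prop := x ∈ dec u

/-- Link: `e = (u, (m, (m', (t, t'))))`. -/
def Lk (k : O) (e : T) (G : Set T) : Prop :=
  ∃ s1 ∈ D (Iio k), ∃ s2 ∈ D (Iio k), ∃ z1 ∈ D (Iio k), ∃ z2 ∈ D (Iio k),
    DecR (Tr.pr e.snd.fst s1) e.fst ∧ DecR (Tr.pr e.snd.snd.fst s2) e.fst ∧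
    Tr.pr s1 z1 ∈ G ∧ Tr.pr s2 z2 ∈ G ∧ Qr z1 z2 e.snd.snd.snd.fst e.snd.snd.snd.snd

/-- Infinite path: `e = (u, (n, y))`. -/
def Uq (k : O) (S : Set (Set T)) (e : T) (G : Set T) : Prop :=
  ∃ Y ∈ S, (Nt e.snd.fst ∧ Tr.pr e.snd.fst e.snd.snd ∈ Y) ∧ ∀ m ∈ D (Iio k), ∀ t ∈ D (Iio k),
    (Nt m ∧ t.IsOrd ∧ Tr.pr m t ∈ Y) →
    ∃ m' ∈ D (Iio k), ∃ t' ∈ D (Iio k), (Suc m m' ∧ t'.IsOrd ∧ Tr.pr m' t' ∈ Y) ∧
      Lk k (.pr e.fst (.pr m (.pr m' (.pr t t')))) G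

/-- The clauses. -/
def Ph (k w : O) (S : Set (Set T)) (C : Set T) (x y : T) (G : Set T) : Prop :=
  InD (.ord w) x ∧
  ((¬ x = .pr x.fst x.snd ∧ y = x) ∨
  (x = .pr (.nat 0) x.snd ∧ Tr.pr x.snd y ∈ C) ∨
  (x = .pr (.nat 1) (.pr x.snd.fst x.snd.snd) ∧ ∃ a ∈ D (Iio k), ∃ b ∈ D (Iio k),
    Tr.pr x.snd.fst a ∈ G ∧ Tr.pr x.snd.snd b ∈ G ∧ y = .pr a b) ∨
  (x = .pr (.nat 2) x.snd ∧ ∃ a ∈ D (Iio k), Tr.pr x.snd a ∈ G ∧ y = a.fst) ∨
  (x = .pr (.nat 3) x.snd ∧ ∃ a ∈ D (Iio k), Tr.pr x.snd a ∈ G ∧ y = a.snd) ∨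
  (x = .pr (.nat 4) (.pr x.snd.fst (.pr x.snd.snd.fst x.snd.snd.snd)) ∧
    ∃ a ∈ D (Iio k), ∃ b ∈ D (Iio k), Tr.pr x.snd.snd.fst a ∈ G ∧ Tr.pr x.snd.snd.snd b ∈ G ∧
      IsWT a x.snd.fst b y) ∨
  (x = .pr (.nat 5) (.pr x.snd.fst (.pr x.snd.snd.fst x.snd.snd.snd)) ∧ y.IsOrd ∧
    Uq k S (.pr x.snd.snd.fst (.pr x.snd.snd.snd y)) G) ∨
  (x = .pr (.nat 6) (.pr x.snd.fst (.pr x.snd.snd.fst (.pr x.snd.snd.snd.fst
    x.snd.snd.snd.snd))) ∧ y.IsOrd ∧ ∃ n ∈ D (Iio k), Suc x.snd.snd.snd.fst n ∧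
    Uq k S (.pr x.snd.snd.fst (.pr n y)) G ∧ ∃ b ∈ D (Iio k), Tr.pr x.snd.snd.snd.snd b ∈ G ∧
      Lk k (.pr x.snd.snd.fst (.pr x.snd.snd.snd.fst (.pr n (.pr b y)))) G))

/-- The least value, or `0`. -/
def Ps (k w : O) (S : Set (Set T)) (C : Set T) (x y : T) (G : Set T) : Prop :=
  (Ph k w S C x y G ∧ ∀ y' ∈ D (Iio k), Ph k w S C x y' G → ¬ y'.lt y) ∨
  ((∀ y' ∈ D (Iio k), ¬ Ph k w S C x y' G) ∧ y = .nat 0)

/-! ### Definability -/

section
variable {k w : O} {S S' : Set (Set T)}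

attribute [local irreducible] Qr Lk Uq Suc Nt DecR InD IsWT

lemma tt1 : TT (fun e : T => e.fst) := ⟨.pr (.nat 0) (.nat 0), fun _ => rfl⟩
lemma tt2 : TT (fun e : T => e.snd.fst) := ⟨.pr (.nat 0) (.pr (.nat 1) (.nat 0)), fun _ => rfl⟩
lemma tt3 : TT (fun e : T => e.snd.snd.fst) :=
  ⟨.pr (.nat 0) (.pr (.nat 1) (.pr (.nat 1) (.nat 0))), fun _ => rfl⟩
lemma tt4 : TT (fun e : T => e.snd.snd.snd) :=
  ⟨.pr (.nat 1) (.pr (.nat 1) (.pr (.nat 1) (.nat 0))), fun _ => rfl⟩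

lemma sdQr [h : SOM k S S'] (hTRD : G_TRD) (hQRT : G_QRT) :
    SD k S S' (fun e _ => Qr e.fst e.snd.fst e.snd.snd.fst e.snd.snd.snd) :=
  (hTRD k S S' h).2.2 (fun e => Qr e.fst e.snd.fst e.snd.snd.fst e.snd.snd.snd)
    (hQRT.1 _ _ _ _ tt1 tt2 tt3 tt4)

lemma sdLk [h : SOM k S S'] (hdec : SD k S S' (fun e _ => DecR e.fst e.snd))
    (hQ : SD k S S' (fun e _ => Qr e.fst e.snd.fst e.snd.snd.fst e.snd.snd.snd)) :
    SD k S S' (fun e σ => Lk k e (σ 0)) := by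
  unfold Lk
  repeat' apply_rules [SD.exT, SD.allT, SD.isOrd, SD.mem, SD.eq, SD.not, SD.and,
    SD.or, SD.iff, SD.imp, ST.id, ST.fst, ST.snd, ST.pr, ST.nat, ST.ordc, SV.var, SV.par,
    SD.app2 hdec, SD.app4 hQ]

lemma sdUq [h : SOM k S S'] (hLk : SD k S S' (fun e σ => Lk k e (σ 0)))
    (hSuc : SD k S S' (fun e _ => Suc e.fst e.snd)) (hNt : SD k S S' (fun e _ => Nt e)) :
    SD k S S' (fun e σ => Uq k S e (σ 0)) := by
  unfold Uq
  repeat' apply_rules [SD.app1 hNt, SD.app2 hSuc, SD.appS1 hLk, SD.exT, SD.allT, SD.exS, SD.allS,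
    SD.isOrd, SD.mem, SD.eq, SD.not, SD.and,
    SD.or, SD.iff, SD.imp, ST.id, ST.fst, ST.snd, ST.pr, ST.nat, ST.ordc, SV.var, SV.par]

lemma sdPh [h : SOM k S S'] {C : Set T} (hC : C ∈ S') (hw : w < k)
    (hLk : SD k S S' (fun e σ => Lk k e (σ 0)))
    (hUq : SD k S S' (fun e σ => Uq k S e (σ 0)))
    (hSuc : SD k S S' (fun e _ => Suc e.fst e.snd))
    (hInD : SD k S S' (fun e _ => InD e.fst e.snd))
    (hIsW : SD k S S' (fun e _ => IsWT e.fst e.snd.fst e.snd.snd.fst e.snd.snd.snd)) :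
    SD k S S' (fun e σ => Ph k w S C e.fst e.snd (σ 0)) := by
  unfold Ph
  repeat' apply_rules [SD.app2 hSuc, SD.app2 hInD, SD.app4 hIsW, SD.appS1 hLk, SD.appS1 hUq,
    SD.exT, SD.allT, SD.isOrd, SD.mem, SD.eq, SD.not, SD.and,
    SD.or, SD.iff, SD.imp, ST.id, ST.fst, ST.snd, ST.pr, ST.nat, ST.ordc, SV.var, SV.par]

lemma sdPs [h : SOM k S S'] {C : Set T}
    (hPh : SD k S S' (fun e σ => Ph k w S C e.fst e.snd (σ 0)))
    (hlt : SD k S S' (fun e _ => e.fst.lt e.snd)) :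
    SD k S S' (fun e σ => Ps k w S C e.fst e.snd (σ 0)) := by
  have h1 : SD k S S' (fun e σ => (fun (x : T) (G : Set T) => Ph k w S C x.fst x.snd G) e (σ 0)) :=
    hPh
  have h2 : SD k S S' (fun e σ => ∀ y' ∈ D (Iio k), Ph k w S C e.fst y' (σ 0) → ¬ y'.lt e.snd) := by
    refine SD.allT (P := fun e y' σ => Ph k w S C e.fst y' (σ 0) → ¬ y'.lt e.snd) ?_
    refine SD.imp ?_ (SD.not ?_)
    · exact hPh.sub (t := fun e => .pr e.snd.fst e.fst) (ST.id.snd.fst.pr ST.id.fst)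
    · exact hlt.sub (t := fun e => .pr e.fst e.snd.snd) (ST.id.fst.pr ST.id.snd.snd)
  have h3 : SD k S S' (fun e σ => ∀ y' ∈ D (Iio k), ¬ Ph k w S C e.fst y' (σ 0)) := by
    refine SD.allT (P := fun e y' σ => ¬ Ph k w S C e.fst y' (σ 0)) ?_
    refine SD.not ?_
    exact hPh.sub (t := fun e => .pr e.snd.fst e.fst) (ST.id.snd.fst.pr ST.id.fst)
  exact (hPh.and h2).or (h3.and (SD.eq ST.id.snd (ST.nat 0)))

lemma sdPrd [h : SOM k S S'] (hSub : SD k S S' (fun e _ => SubT e.fst e.snd))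
    (hLf : SD k S S' (fun e _ => LeafOf e.fst e.snd))
    (hInD : SD k S S' (fun e _ => InD e.fst e.snd)) :
    SD k S S' (fun e _ => e.fst ∈ prd e.snd) := by
  have h1 : SD k S S' (fun e _ => (SubT e.fst e.snd ∧ ¬ e.fst = e.snd) ∨
      ∃ z ∈ D (Iio k), LeafOf z e.snd ∧ InD z e.fst) := by
    refine (hSub.and (SD.not (SD.eq ST.id.fst ST.id.snd))).or ?_
    refine SD.exT (P := fun e z _ => LeafOf z e.snd ∧ InD z e.fst) ?_
    exact (hLf.sub (t := fun e => .pr e.fst e.snd.snd) (ST.id.fst.pr ST.id.snd.snd)).and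
      (hInD.sub (t := fun e => .pr e.fst e.snd.fst) (ST.id.fst.pr ST.id.snd.fst))
  refine h1.congr fun e he σ hσ => ?_
  constructor
  · rintro (⟨h2, h3⟩ | ⟨z, -, ⟨i, hi, rfl⟩, h3⟩)
    · exact Or.inl ⟨h2, h3⟩
    · unfold InD at h3
      obtain ⟨b, hb, h4⟩ := h3
      obtain rfl : i = b := by injection hb
      exact Or.inr ⟨i, hi, h4⟩
  · rintro (⟨h2, h3⟩ | ⟨i, hi, h3⟩)
    · exact Or.inl ⟨h2, h3⟩
    · refine Or.inr ⟨.ord i, ord_mem.2 (snd_mem he hi), ⟨i, hi, rfl⟩, ?_⟩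
      unfold InD
      exact ⟨i, rfl, h3⟩

end

/-! ### Parallel derivations stay below `τ` -/

lemma lev_lt {t : T} {τ a : O} (h : t ∈ D (Iio τ)) (ha : a < lev t) : lev t < τ := by
  cases t with
  | ord b => exact ord_mem.1 h
  | nat n => exact absurd ha (not_lt.2 (zero_le (a := a)))
  | pr s t => exact absurd ha (not_lt.2 (zero_le (a := a)))

lemma isW_mem {b : O} {φ : Code} {e x : T} (h : IsW b φ e x) : x ∈ D (Iio b) := h.1

lemma pj_mem {m m' : T} {τ : O} (hm : m ∈ D (Iio τ)) (hm' : m' ∈ D (Iio τ)) {t t' : T}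
    (h : PJ m m' t t') : t ∈ D (Iio τ) ∧ t' ∈ D (Iio τ) := by
  have hlev : ∀ {t x : T}, t ∈ D (Iio τ) → x ∈ D (Iio (lev t)) → x ∈ D (Iio τ) := by
    intro t x ht hx a ha
    exact (hx ha).trans (lev_lt ht (hx ha))
  induction h with
  | nat n => exact ⟨nat_mem _ _, nat_mem _ _⟩
  | low hx =>
    have h1 := hx.trans (lev_lt (fst_mem (snd_mem (snd_mem hm))) hx)
    exact ⟨ord_mem.2 h1, ord_mem.2 h1⟩
  | par => exact ⟨snd_mem (snd_mem (snd_mem hm)), snd_mem (snd_mem (snd_mem hm'))⟩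
  | pr _ _ h1 h2 => exact ⟨pr_mem.2 ⟨h1.1, h2.1⟩, pr_mem.2 ⟨h1.2, h2.2⟩⟩
  | fst _ h1 => exact ⟨fst_mem h1.1, fst_mem h1.2⟩
  | snd _ h1 => exact ⟨snd_mem h1.1, snd_mem h1.2⟩
  | inner _ hb hb' _ _ _ hx hx' _ _ =>
    exact ⟨hlev (fst_mem hm) (D_mono (Iio_subset_Iio hb.le) hx.1),
      hlev (fst_mem hm') (D_mono (Iio_subset_Iio hb'.le) hx'.1)⟩
  | top _ _ _ _ _ _ _ hx hx' _ => exact ⟨hlev (fst_mem hm) hx.1, hlev (fst_mem hm') hx'.1⟩

lemma qr_mem {z z' x x' : T} {τ : O} (hz : z ∈ D (Iio τ)) (hz' : z' ∈ D (Iio τ))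
    (h : Qr z z' x x') : x ∈ D (Iio τ) ∧ x' ∈ D (Iio τ) := by
  obtain ⟨h1, h2, y, hy, h3, h4⟩ := h
  obtain ⟨h5, h6⟩ := pj_mem hz hz' h3
  refine ⟨h5, ?_⟩
  cases x' with
  | ord a =>
    cases y with
    | ord b =>
      have h7 : a < b := h4
      exact ord_mem.2 (h7.trans (ord_mem.1 h6))
    | nat n => exact absurd hy (by simp [Tr.IsOrd])
    | pr s t => exact absurd hy (by simp [Tr.IsOrd])
  | nat n => exact nat_mem _ _
  | pr s t => exact absurd h2 (by simp [Tr.IsOrd])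

/-! ### The recursion -/

section
variable (k w : O) (S : Set (Set T)) (C : Set T)

/-- Graph on the predecessors. -/
def gv (v : T → T) (x : T) : Set T := {p | ∃ x' y' : T, p = .pr x' y' ∧ x' ∈ prd x ∧ y' = v x'}

lemma mem_gv {v : T → T} {x a y : T} : Tr.pr a y ∈ gv v x ↔ a ∈ prd x ∧ y = v a := by
  constructor
  · rintro ⟨x', y', h1, h2, h3⟩
    injection h1 with h4 h5
    subst h4; subst h5
    exact ⟨h2, h3⟩
  · rintro ⟨h1, h2⟩
    exact ⟨a, y, rfl, h1, h2⟩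

open Classical in
/-- The recursive function. -/
noncomputable def vf : T → T := prd_wf.fix (fun x ih =>
  if h : ∃ y, y ∈ D (Iio k) ∧ Ps k w S C x y {p | ∃ x' y' : T, p = .pr x' y' ∧
    ∃ hx : x' ∈ prd x, y' = ih x' hx} then h.choose else .nat 0)

open Classical in
lemma vf_eq (x : T) : vf k w S C x =
    if h : ∃ y, y ∈ D (Iio k) ∧ Ps k w S C x y (gv (vf k w S C) x) then h.choose else .nat 0 := by
  have h1 : {p | ∃ x' y' : T, p = .pr x' y' ∧ ∃ _ : x' ∈ prd x, y' = vf k w S C x'} =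
      gv (vf k w S C) x := by
    ext p
    simp only [gv, exists_prop]
  rw [← h1]
  conv_lhs => rw [vf, WellFounded.fix_eq]
  rfl

variable {k w S C}

lemma ps_ex (hwf : WellFounded (Tr.lt : T → T → Prop)) (x : T) (G : Set T) :
    ∃ y, y ∈ D (Iio k) ∧ Ps k w S C x y G := by
  by_cases h : ∃ y, y ∈ D (Iio k) ∧ Ph k w S C x y G
  · have h1 := hwf.min_mem {y | y ∈ D (Iio k) ∧ Ph k w S C x y G} h
    refine ⟨_, h1.1, Or.inl ⟨h1.2, fun y' hy' h' => ?_⟩⟩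
    exact hwf.not_lt_min {y | y ∈ D (Iio k) ∧ Ph k w S C x y G} ⟨hy', h'⟩
  · exact ⟨.nat 0, nat_mem _ _, Or.inr ⟨fun y' hy' h' => h ⟨y', hy', h'⟩, rfl⟩⟩

lemma ps_uniq (htri : ∀ s t : T, s.lt t ∨ s = t ∨ t.lt s) {x y y' : T} {G : Set T}
    (hy : y ∈ D (Iio k)) (hy' : y' ∈ D (Iio k)) (h : Ps k w S C x y G)
    (h' : Ps k w S C x y' G) : y = y' := by
  rcases h with ⟨h1, h2⟩ | ⟨h1, h2⟩ <;> rcases h' with ⟨h3, h4⟩ | ⟨h3, h4⟩
  · rcases htri y y' with h5 | h5 | h5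
    · exact absurd h5 (h4 y hy h1)
    · exact h5
    · exact absurd h5 (h2 y' hy' h3)
  · exact absurd h1 (h3 y hy)
  · exact absurd h3 (h1 y' hy')
  · rw [h2, h4]

lemma vf_spec (hwf : WellFounded (Tr.lt : T → T → Prop)) (x : T) :
    vf k w S C x ∈ D (Iio k) ∧ Ps k w S C x (vf k w S C x) (gv (vf k w S C) x) := by
  have h := ps_ex (k := k) (w := w) (S := S) (C := C) hwf x (gv (vf k w S C) x)
  rw [vf_eq, dif_pos h]
  exact h.choose_spec

/-- The specification of `val`. -/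
def Sp (k w : O) (S : Set (Set T)) (C : Set T) (v : T → T) : Prop :=
  ∀ x, v x ∈ D (Iio k) ∧ Ps k w S C x (v x) (gv v x)

lemma sp_of {v : T → T} (hv : Sp k w S C v) {x y₀ : T} (hy₀ : y₀ ∈ D (Iio k))
    (h : ∀ y ∈ D (Iio k), Ph k w S C x y (gv v x) ↔ y = y₀) : v x = y₀ := by
  obtain ⟨h1, h2⟩ := hv x
  rcases h2 with ⟨h3, -⟩ | ⟨h3, -⟩
  · exact (h _ h1).1 h3
  · exact absurd ((h _ hy₀).2 rfl) (h3 _ hy₀)

lemma sp_ph {v : T → T} (hv : Sp k w S C v) {x : T}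
    (h : ∃ y ∈ D (Iio k), Ph k w S C x y (gv v x)) : Ph k w S C x (v x) (gv v x) := by
  obtain ⟨h1, h2⟩ := hv x
  rcases h2 with ⟨h3, -⟩ | ⟨h3, -⟩
  · exact h3
  · obtain ⟨y, hy, h4⟩ := h
    exact absurd h4 (h3 _ hy)

end

/-- **Packet VAL.** -/
theorem thm (hREC : G_REC) (hTRE : G_TRE) (hTRD : G_TRD) (hDEC : G_DEC) (hQRT : G_QRT)
    (hLTO : G_LTO.{2}) (hLTW : G_LTW.{2}) (hOFC : G_OFC.{2}) : G_VAL := by
  intro k w τ S S' c hC hM
  have hS := hC.som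
  have hwf : WellFounded (Tr.lt : T → T → Prop) := hLTW O
  obtain ⟨-, -, htri⟩ := hLTO O
  obtain ⟨ofc1, -, -, -, -, -⟩ := hOFC O
  obtain ⟨-, tlt, -, tlf, tsub, tind, -, tnt, tsuc, -⟩ := hTRE k S S' hS
  have hwk := hC.wk
  have hτk := hM.tk
  have hwτ := hM.tw
  set C := gr (D (Iio w)) c with hCdef
  obtain ⟨v, hspec⟩ : ∃ v, Sp k w S C v := ⟨vf k w S C, vf_spec hwf⟩
  have hDwk : D (Iio w) ⊆ D (Iio k) := D_mono (Iio_subset_Iio hwk.le)
  have hDwτ : D (Iio w) ⊆ D (Iio τ) := D_mono (Iio_subset_Iio hwτ.le)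
  have hvk : ∀ x, v x ∈ D (Iio k) := fun x => (hspec x).1
  -- bound
  have hbd : ∀ a, a ∈ D (Iio w) → v a ∈ D (Iio τ) := by
    intro a
    induction a using prd_wf.induction with
    | _ a ih =>
    intro ha
    have ih' : ∀ b ∈ prd a, v b ∈ D (Iio τ) := fun b hb => ih b hb (prd_sub ha hb)
    obtain ⟨h1, h2⟩ := hspec a
    rcases h2 with ⟨⟨-, h3⟩, -⟩ | ⟨-, h3⟩
    · have hLk : ∀ u m m' t t', Lk k (.pr u (.pr m (.pr m' (.pr t t')))) (gv v a) →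
          t ∈ D (Iio τ) ∧ t' ∈ D (Iio τ) := by
        rintro u m m' t t' ⟨s1, -, s2, -, z1, -, z2, -, -, -, h4, h5, h6⟩
        obtain ⟨h7, rfl⟩ := mem_gv.1 h4
        obtain ⟨h8, rfl⟩ := mem_gv.1 h5
        exact qr_mem (ih' _ h7) (ih' _ h8) h6
      rcases h3 with ⟨-, h3⟩ | ⟨-, h3⟩ | ⟨-, a', -, b', -, h4, h5, h3⟩ | ⟨-, a', -, h4, h3⟩ |
        ⟨-, a', -, h4, h3⟩ | ⟨-, a', -, b', -, h4, -, h3⟩ | ⟨-, h4, Y, -, h5, h3⟩ |
        ⟨-, h4, n, -, -, -, b, -, -, h3⟩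
      · rw [h3]; exact hDwτ ha
      · obtain ⟨x, hx, h4⟩ := h3
        injection h4 with h5 h6
        rw [h6]
        exact (hM.cf x hx).2
      · obtain ⟨h6, rfl⟩ := mem_gv.1 h4
        obtain ⟨h7, rfl⟩ := mem_gv.1 h5
        rw [h3]
        exact pr_mem.2 ⟨ih' _ h6, ih' _ h7⟩
      · obtain ⟨h6, rfl⟩ := mem_gv.1 h4
        rw [h3]
        exact fst_mem (ih' _ h6)
      · obtain ⟨h6, rfl⟩ := mem_gv.1 h4
        rw [h3]
        exact snd_mem (ih' _ h6)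
      · obtain ⟨h6, rfl⟩ := mem_gv.1 h4
        obtain ⟨g, φ, hg, -, -, h7⟩ := h3
        have h8 := ih' _ h6
        rw [hg] at h8
        exact D_mono (Iio_subset_Iio (le_of_lt (ord_mem.1 h8))) h7.1
      · obtain ⟨⟨n, hn⟩, h5⟩ := h5
        obtain ⟨m', -, t', -, -, h6⟩ := h3 _ (by rw [hn]; exact nat_mem _ _) _ h1 ⟨⟨n, hn⟩, h4, h5⟩
        exact (hLk _ _ _ _ _ h6).1
      · exact (hLk _ _ _ _ _ h3).2
    · rw [h3]; exact nat_mem _ _
  have hv0 : ∀ x, x ∉ D (Iio w) → v x = .nat 0 := by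
    intro x hx
    obtain ⟨h1, h2⟩ := hspec x
    rcases h2 with ⟨⟨h3, -⟩, -⟩ | ⟨-, h3⟩
    · obtain ⟨b, hb, h4⟩ := h3
      obtain rfl : w = b := by injection hb
      exact absurd h4 hx
    · exact h3
  -- definability
  have sdec : SD k S S' (fun e _ => DecR e.fst e.snd) := (hDEC k S S' hS).1
  have sQr := sdQr (k := k) (S := S) (S' := S') hTRD hQRT
  have sLk := sdLk sdec sQr
  have sUq := sdUq sLk (show SD k S S' (fun e _ => Suc e.fst e.snd) from tsuc)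
    (show SD k S S' (fun e _ => Nt e) from tnt)
  have sPh := sdPh (C := C) hM.cS hwk sLk sUq tsuc tind (hTRD k S S' hS).2.1
  have sPs := sdPs sPh tlt
  have sPrd := sdPrd tsub tlf tind
  obtain ⟨-, hgr⟩ := hREC k S S' hS prd (fun x => {y | y = v x}) (Ps k w S C) sPrd sPs prd_wf
    ⟨0, lt_of_le_of_lt (zero_le (a := w)) hwk, fun d _ _ x hx => prd_sub hx⟩
    (by
      intro x hx y
      constructor
      · intro h
        have h' : y = v x := h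
        rw [h']
        exact hspec x
      · rintro ⟨h1, h2⟩
        exact ps_uniq htri h1 (hvk x) h2 (hspec x).2)
    (by
      intro d hd
      refine ⟨τ, hτk, fun x hx y hy => ?_⟩
      have h' : y = v x := hy
      rw [h']
      by_cases hxw : x ∈ D (Iio w)
      · exact hbd x hxw
      · rw [hv0 x hxw]; exact nat_mem _ _)
  refine ⟨v, ?_, ?_⟩
  swap
  · have h1 := hgr w hwk
    convert h1 using 1
    ext p
    constructor
    · rintro ⟨x, hx, rfl⟩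
      exact ⟨x, hx, v x, rfl, rfl⟩
    · rintro ⟨x, hx, y, hy, rfl⟩
      have h' : y = v x := hy
      rw [h']
      exact ⟨x, hx, rfl⟩
  -- the path relation
  have hsub1 : ∀ t a : T, a ∈ prd (.pr t a) := fun t a =>
    Or.inl ⟨Or.inr (Or.inr (subT_self a)), by
      intro h; have := congrArg Tr.height h; simp only [Tr.height] at this; omega⟩
  have hlk : ∀ (s : ℕ → T) (u : T) (i : O) (x₀ : T), i < w → (∀ n, s n ∈ D (Iio i)) →
      sq s = dec u → D (Iio i) ⊆ prd x₀ → ∀ (m : ℕ) (t t' : T),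
      (Lk k (.pr u (.pr (.nat m) (.pr (.nat (m + 1)) (.pr t t')))) (gv v x₀) ↔
        Qr (v (s m)) (v (s (m + 1))) t t') := by
    intro s u i x₀ hi hs hu hx₀ m t t'
    have hdu : ∀ (m : ℕ) (y : T), DecR (Tr.pr (.nat m) y) u ↔ y = s m := by
      intro m y
      show Tr.pr (.nat m) y ∈ dec u ↔ _
      rw [← hu]
      constructor
      · rintro ⟨n, h⟩
        injection h with h1 h2
        injection h1 with h1
        rw [h2, h1]
      · intro h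
        exact ⟨m, by rw [h]⟩
    have hsk : ∀ n, s n ∈ D (Iio k) := fun n =>
      D_mono (Iio_subset_Iio (hi.trans hwk).le) (hs n)
    constructor
    · rintro ⟨s1, -, s2, -, z1, -, z2, -, h1, h2, h3, h4, h5⟩
      have h1' := (hdu m s1).1 h1
      have h2' := (hdu (m + 1) s2).1 h2
      obtain ⟨-, rfl⟩ := mem_gv.1 h3
      obtain ⟨-, rfl⟩ := mem_gv.1 h4
      rw [h1', h2'] at h5
      exact h5
    · intro h
      exact ⟨s m, hsk _, s (m + 1), hsk _, v (s m), hvk _, v (s (m + 1)), hvk _,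
        (hdu m _).2 rfl, (hdu (m + 1) _).2 rfl, mem_gv.2 ⟨hx₀ (hs m), rfl⟩,
        mem_gv.2 ⟨hx₀ (hs (m + 1)), rfl⟩, h⟩
  have huq : ∀ (s : ℕ → T) (u : T) (i : O) (x₀ : T), i < w → (∀ n, s n ∈ D (Iio i)) →
      sq s = dec u → D (Iio i) ⊆ prd x₀ → ∀ (n : ℕ) (x : O),
      (Uq k S (.pr u (.pr (.nat n) (.ord x))) (gv v x₀) ↔ Uz S (fun j => v (s j)) n x) := by
    intro s u i x₀ hi hs hu hx₀ n x
    have hbY : ∀ Y ∈ S, ∀ (m : ℕ) (y : O), Tr.pr (.nat m) (.ord y) ∈ Y → y < k := by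
      intro Y hY m y h
      obtain ⟨d, hd, hYd⟩ := hS.bdd Y hY
      exact lt_trans (ord_mem.1 (pr_mem.1 (hYd h)).2) hd
    constructor
    · rintro ⟨Y, hY, ⟨-, h1⟩, h2⟩
      refine ⟨Y, hY, h1, fun m y hy => ?_⟩
      obtain ⟨m', -, t', -, ⟨⟨n', h3, h4⟩, h5, h6⟩, h7⟩ := h2 (.nat m) (nat_mem _ _) (.ord y)
        (ord_mem.2 (hbY Y hY m y hy)) ⟨⟨m, rfl⟩, trivial, hy⟩
      injection h3 with h3
      subst h3
      subst h4
      cases t' with
      | ord y' => exact ⟨y', h6, (hlk s u i x₀ hi hs hu hx₀ m _ _).1 h7⟩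
      | nat _ => exact absurd h5 (by simp [Tr.IsOrd])
      | pr _ _ => exact absurd h5 (by simp [Tr.IsOrd])
    · rintro ⟨Y, hY, h1, h2⟩
      refine ⟨Y, hY, ⟨⟨n, rfl⟩, h1⟩, ?_⟩
      rintro m - t - ⟨⟨n', rfl⟩, h3, h4⟩
      cases t with
      | ord y =>
        obtain ⟨y', h5, h6⟩ := h2 n' y h4
        exact ⟨.nat (n' + 1), nat_mem _ _, .ord y', ord_mem.2 (hbY Y hY _ _ h5),
          ⟨⟨n', rfl, rfl⟩, trivial, h5⟩, (hlk s u i x₀ hi hs hu hx₀ n' _ _).2 h6⟩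
      | nat _ => exact absurd h3 (by simp [Tr.IsOrd])
      | pr _ _ => exact absurd h3 (by simp [Tr.IsOrd])
  have huk : ∀ (z : ℕ → T) (n : ℕ) (x : O), Uz S z n x → x < k := by
    rintro z n x ⟨Y, hY, h1, -⟩
    obtain ⟨d, hd, hYd⟩ := hS.bdd Y hY
    exact lt_trans (ord_mem.1 (pr_mem.1 (hYd h1)).2) hd
  have hin : ∀ x ∈ D (Iio w), InD (.ord w) x := fun x hx => ⟨w, rfl, hx⟩
  have hp1 : ∀ (n : ℕ) (a : T), a ∈ prd (.pr (.nat n) a) := fun n a => hsub1 _ _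
  have hp2 : ∀ (n : ℕ) (a b : T), a ∈ prd (.pr (.nat n) (.pr a b)) ∧
      b ∈ prd (.pr (.nat n) (.pr a b)) := by
    intro n a b
    refine ⟨Or.inl ⟨Or.inr (Or.inr (Or.inr (Or.inl (subT_self a)))), ?_⟩,
      Or.inl ⟨Or.inr (Or.inr (Or.inr (Or.inr (subT_self b)))), ?_⟩⟩
    · intro h; have := congrArg Tr.height h; simp only [Tr.height] at this; omega
    · intro h; have := congrArg Tr.height h; simp only [Tr.height] at this; omega
  have hp3 : ∀ (n : ℕ) (t a b : T), a ∈ prd (.pr (.nat n) (.pr t (.pr a b))) ∧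
      b ∈ prd (.pr (.nat n) (.pr t (.pr a b))) := by
    intro n t a b
    refine ⟨Or.inl ⟨Or.inr (Or.inr (Or.inr (Or.inr (Or.inr (Or.inl (subT_self a)))))), ?_⟩,
      Or.inl ⟨Or.inr (Or.inr (Or.inr (Or.inr (Or.inr (Or.inr (subT_self b)))))), ?_⟩⟩
    · intro h; have := congrArg Tr.height h; simp only [Tr.height] at this; omega
    · intro h; have := congrArg Tr.height h; simp only [Tr.height] at this; omega
  have hp4 : ∀ (n : ℕ) (t u a b : T), b ∈ prd (.pr (.nat n) (.pr t (.pr u (.pr a b)))) := by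
    intro n t u a b
    refine Or.inl ⟨Or.inr (Or.inr (Or.inr (Or.inr (Or.inr (Or.inr (Or.inr (Or.inr
      (subT_self b)))))))), ?_⟩
    intro h; have := congrArg Tr.height h; simp only [Tr.height] at this; omega
  have hpi : ∀ (n : ℕ) (i : O) (t : T), D (Iio i) ⊆ prd (.pr (.nat n) (.pr (.ord i) t)) := by
    intro n i t b hb
    exact Or.inr ⟨i, by simp [Tr.leaves], hb⟩
  refine ⟨?_, ?_, ?_, ?_, ?_, ?_, ?_, ?_, ?_, fun a ha => hbd a ha⟩
  · intro n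
    refine sp_of hspec (nat_mem _ _) fun y hy => ?_
    constructor
    · rintro ⟨-, h⟩
      simpa [Tr.fst, Tr.snd] using h
    · rintro rfl
      exact ⟨hin _ (nat_mem _ _), Or.inl ⟨by simp [Tr.fst, Tr.snd], rfl⟩⟩
  · intro i hi
    have hi' : (Tr.ord i : T) ∈ D (Iio w) := ord_mem.2 hi
    refine sp_of hspec (hDwk hi') fun y hy => ?_
    constructor
    · rintro ⟨-, h⟩
      simpa [Tr.fst, Tr.snd] using h
    · rintro rfl
      exact ⟨hin _ hi', Or.inl ⟨by simp [Tr.fst, Tr.snd], rfl⟩⟩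
  · intro a ha
    have hca : c a ∈ D (Iio k) := D_mono (Iio_subset_Iio hτk.le) (hM.cf a ha).2
    refine sp_of hspec hca fun y hy => ?_
    constructor
    · rintro ⟨-, h⟩
      simp only [Tr.fst, Tr.snd, not_true_eq_false, false_and, false_or, true_and, Tr.pr.injEq,
        Tr.nat.injEq, OfNat.zero_ne_ofNat, zero_ne_one, or_false] at h
      obtain ⟨x, hx, h⟩ := h
      injection h with h1 h2
      rw [h2, h1]
    · rintro rfl
      exact ⟨hin _ (pr_mem.2 ⟨nat_mem _ _, ha⟩), Or.inr (Or.inl ⟨rfl, a, ha, rfl⟩)⟩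
  · intro a ha b hb
    refine sp_of hspec (pr_mem.2 ⟨hvk a, hvk b⟩) fun y hy => ?_
    constructor
    · rintro ⟨-, h⟩
      simp only [Tr.fst, Tr.snd, not_true_eq_false, false_and, false_or, true_and, Tr.pr.injEq,
        Tr.nat.injEq, OfNat.one_ne_ofNat, one_ne_zero, or_false] at h
      obtain ⟨a', -, b', -, h1, h2, h3⟩ := h
      rw [h3, (mem_gv.1 h1).2, (mem_gv.1 h2).2]
    · rintro rfl
      exact ⟨hin _ (pr_mem.2 ⟨nat_mem _ _, pr_mem.2 ⟨ha, hb⟩⟩), Or.inr (Or.inr (Or.inl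
        ⟨rfl, v a, hvk a, v b, hvk b, mem_gv.2 ⟨(hp2 _ _ _).1, rfl⟩,
          mem_gv.2 ⟨(hp2 _ _ _).2, rfl⟩, rfl⟩))⟩
  · intro a ha
    refine sp_of hspec (fst_mem (hvk a)) fun y hy => ?_
    constructor
    · rintro ⟨-, h⟩
      simp only [Tr.fst, Tr.snd, not_true_eq_false, false_and, false_or, true_and, Tr.pr.injEq,
        Tr.nat.injEq, OfNat.ofNat_ne_zero, OfNat.ofNat_ne_one, Nat.reduceEqDiff, or_false] at h
      obtain ⟨a', -, h1, h3⟩ := h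
      rw [(mem_gv.1 h1).2] at h3
      exact h3
    · rintro rfl
      exact ⟨hin _ (pr_mem.2 ⟨nat_mem _ _, ha⟩), Or.inr (Or.inr (Or.inr (Or.inl
        ⟨rfl, v a, hvk a, mem_gv.2 ⟨hp1 _ _, rfl⟩, rfl⟩)))⟩
  · intro a ha
    refine sp_of hspec (snd_mem (hvk a)) fun y hy => ?_
    constructor
    · rintro ⟨-, h⟩
      simp only [Tr.fst, Tr.snd, not_true_eq_false, false_and, false_or, true_and, Tr.pr.injEq,
        Tr.nat.injEq, OfNat.ofNat_ne_zero, OfNat.ofNat_ne_one, Nat.reduceEqDiff, or_false] at h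
      obtain ⟨a', -, h1, h3⟩ := h
      rw [(mem_gv.1 h1).2] at h3
      exact h3
    · rintro rfl
      exact ⟨hin _ (pr_mem.2 ⟨nat_mem _ _, ha⟩), Or.inr (Or.inr (Or.inr (Or.inr (Or.inl
        ⟨rfl, v a, hvk a, mem_gv.2 ⟨hp1 _ _, rfl⟩, rfl⟩))))⟩
  · intro a ha b hb φ g x hg hbg hx
    have hgk : g < k := by
      have h1 := hvk a
      rw [hg] at h1
      exact ord_mem.1 h1
    have hxk : x ∈ D (Iio k) := D_mono (Iio_subset_Iio hgk.le) hx.1
    have hcd : (Tr.ofCode φ : T) ∈ D (Iio w) := by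
      have h1 := (hOFC O).2.2.1 φ
      show (Tr.ofCode φ : T).leaves ⊆ _
      rw [h1]
      exact empty_subset _
    refine sp_of hspec hxk fun y hy => ?_
    constructor
    · rintro ⟨-, h⟩
      simp only [Tr.fst, Tr.snd, not_true_eq_false, false_and, false_or, true_and, Tr.pr.injEq,
        Tr.nat.injEq, OfNat.ofNat_ne_zero, OfNat.ofNat_ne_one, Nat.reduceEqDiff, or_false] at h
      obtain ⟨a', -, b', -, h1, h2, h3⟩ := h
      rw [(mem_gv.1 h1).2, (mem_gv.1 h2).2, hg] at h3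
      obtain ⟨g', φ', h4, h5, h6, h7⟩ := h3
      injection h4 with h4
      have h8 := ofc1 _ _ h5
      subst h4; subst h8
      rcases htri y x with h9 | h9 | h9
      · exact absurd h9 (hx.2.2 y h7.1 h7.2.1)
      · exact h9
      · exact absurd h9 (h7.2.2 x hx.1 hx.2.1)
    · rintro rfl
      refine ⟨hin _ (pr_mem.2 ⟨nat_mem _ _, pr_mem.2 ⟨hcd, pr_mem.2 ⟨ha, hb⟩⟩⟩),
        Or.inr (Or.inr (Or.inr (Or.inr (Or.inr (Or.inl
        ⟨rfl, v a, hvk a, v b, hvk b, mem_gv.2 ⟨(hp3 _ _ _ _).1, rfl⟩,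
          mem_gv.2 ⟨(hp3 _ _ _ _).2, rfl⟩, ?_⟩)))))⟩
      rw [hg]
      exact ⟨g, φ, rfl, rfl, hbg, hx⟩
  · intro s u i hu hi hs hsu n hex
    set x₀ : T := .pr (.nat 5) (.pr (.ord i) (.pr u (.nat n))) with hx₀
    have hx₀w : x₀ ∈ D (Iio w) := pr_mem.2 ⟨nat_mem _ _, pr_mem.2 ⟨ord_mem.2 hi,
      pr_mem.2 ⟨hu, nat_mem _ _⟩⟩⟩
    have hq := huq s u i x₀ hi hs hsu (hpi _ _ _) n
    have h1 : ∃ y ∈ D (Iio k), Ph k w S C x₀ y (gv v x₀) := by
      obtain ⟨x, hx⟩ := hex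
      exact ⟨.ord x, ord_mem.2 (huk _ _ _ hx), hin _ hx₀w, Or.inr (Or.inr (Or.inr (Or.inr (Or.inr
        (Or.inr (Or.inl ⟨rfl, trivial, (hq x).2 hx⟩))))))⟩
    obtain ⟨-, h⟩ := sp_ph hspec h1
    simp only [hx₀, Tr.fst, Tr.snd, not_true_eq_false, false_and, false_or, true_and, Tr.pr.injEq,
      Tr.nat.injEq, OfNat.ofNat_ne_zero, OfNat.ofNat_ne_one, Nat.reduceEqDiff, or_false] at h
    rw [← hx₀] at h
    obtain ⟨h2, h3⟩ := h
    cases hvx : v x₀ with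
    | ord x =>
      rw [hvx] at h3
      exact ⟨x, rfl, (hq x).1 h3⟩
    | nat _ => rw [hvx] at h2; exact absurd h2 (by simp [Tr.IsOrd])
    | pr _ _ => rw [hvx] at h2; exact absurd h2 (by simp [Tr.IsOrd])
  · intro s u i hu hi hs hsu n b x hb hbx hex
    set x₀ : T := .pr (.nat 6) (.pr (.ord i) (.pr u (.pr (.nat n) b))) with hx₀
    have hx₀w : x₀ ∈ D (Iio w) := pr_mem.2 ⟨nat_mem _ _, pr_mem.2 ⟨ord_mem.2 hi,
      pr_mem.2 ⟨hu, pr_mem.2 ⟨nat_mem _ _, hb⟩⟩⟩⟩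
    have hq := huq s u i x₀ hi hs hsu (hpi _ _ _)
    have hl := hlk s u i x₀ hi hs hsu (hpi _ _ _) n
    have hbp : b ∈ prd x₀ := hp4 _ _ _ _ _
    have h1 : ∃ y ∈ D (Iio k), Ph k w S C x₀ y (gv v x₀) := by
      obtain ⟨Y, hY, h2, h3⟩ := hex
      obtain ⟨y, h4, h5⟩ := h3 n x h2
      have h6 : Uz S (fun j => v (s j)) (n + 1) y := ⟨Y, hY, h4, h3⟩
      exact ⟨.ord y, ord_mem.2 (huk _ _ _ h6), hin _ hx₀w, Or.inr (Or.inr (Or.inr (Or.inr (Or.inr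
        (Or.inr (Or.inr ⟨rfl, trivial, .nat (n + 1), nat_mem _ _, ⟨n, rfl, rfl⟩,
          (hq (n + 1) y).2 h6, v b, hvk b, mem_gv.2 ⟨hbp, rfl⟩, by
            rw [hbx]; exact (hl _ _).2 h5⟩))))))⟩
    obtain ⟨-, h⟩ := sp_ph hspec h1
    simp only [hx₀, Tr.fst, Tr.snd, not_true_eq_false, false_and, false_or, true_and, Tr.pr.injEq,
      Tr.nat.injEq, OfNat.ofNat_ne_zero, OfNat.ofNat_ne_one, Nat.reduceEqDiff] at h
    rw [← hx₀] at h
    obtain ⟨h2, n', -, ⟨n'', h3, h4⟩, h5, b', -, h6, h7⟩ := h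
    injection h3 with h3
    subst h3; subst h4
    rw [(mem_gv.1 h6).2, hbx] at h7
    cases hvx : v x₀ with
    | ord y =>
      rw [hvx] at h5 h7
      exact ⟨y, rfl, (hq (n + 1) y).1 h5, (hl _ _).1 h7⟩
    | nat _ => rw [hvx] at h2; exact absurd h2 (by simp [Tr.IsOrd])
    | pr _ _ => rw [hvx] at h2; exact absurd h2 (by simp [Tr.IsOrd])

end Pool.Agent.Helper17.OD.PkVAL
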